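import Pool.Agent.H77.KG.Targets

/-!
# Row ABN of the board `kgr_modules` (MP_9d0bb7_lc)
-/

set_option autoImplicit false

open Set Pool.Agent.H77.BC Pool.Agent.H77.BD Pool.Agent.H77.KG Pool.Agent.H77.BCP

namespace Pool.Agent.H23.KGR

/-- the elements which commute with `X` modulo the normal subgroup `N` -/
private theorem abn_cent {Γ : Type} [Group Γ] (N : Subgroup Γ) [N.Normal] (X : Set Γ) :
    ∃ Z : Subgroup Γ, ∀ g, g ∈ Z ↔ ∀ x ∈ X, g * x * g⁻¹ * x⁻¹ ∈ N := by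
  refine ⟨(Subgroup.centralizer ((QuotientGroup.mk' N) '' X)).comap (QuotientGroup.mk' N), ?_⟩
  intro g
  rw [Subgroup.mem_comap, Subgroup.mem_centralizer_iff]
  have key : ∀ x : Γ, g * x * g⁻¹ * x⁻¹ ∈ N ↔
      (QuotientGroup.mk' N) x * (QuotientGroup.mk' N) g =
        (QuotientGroup.mk' N) g * (QuotientGroup.mk' N) x := by
    intro x
    have h1 : g * x * g⁻¹ * x⁻¹ ∈ N ↔ (QuotientGroup.mk' N) (g * x * g⁻¹ * x⁻¹) = 1 :=
      (QuotientGroup.eq_one_iff _).symm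
    rw [h1, map_mul, map_mul, map_mul, map_inv, map_inv, mul_inv_eq_one, mul_inv_eq_iff_eq_mul]
    exact eq_comm
  constructor
  · intro h x hx
    exact (key x).mpr (h _ ⟨x, hx, rfl⟩)
  · rintro h _ ⟨x, hx, rfl⟩
    exact (key x).mp (h x hx)

private theorem abn_series {Γ : Type} [Group Γ] (R : Subgroup Γ) (hR : R.Normal)
    (hs : Group.IsSolvable R) (hinf : (R : Set Γ).Infinite) :
    ∃ N : Subgroup Γ, N.Normal ∧ (N : Set Γ).Infinite ∧
      ((⁅N, N⁆ : Subgroup Γ) : Set Γ).Finite := by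
  obtain ⟨s, hs⟩ := hs.solvable
  let N : ℕ → Subgroup Γ := fun k => (derivedSeries R k).map R.subtype
  have hN0 : N 0 = R := by
    show ((⊤ : Subgroup R).map R.subtype) = R
    rw [← MonoidHom.range_eq_map, Subgroup.range_subtype]
  have hNs : ∀ k, N (k + 1) = ⁅N k, N k⁆ := fun k => Subgroup.map_commutator _ _ _
  have hNn : ∀ k, (N k).Normal := by
    intro k
    induction k with
    | zero =>
      rw [hN0]
      exact hR
    | succ k ih =>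
      rw [hNs]
      exact Subgroup.commutator_normal _ _
  by_contra hcon
  have hall : ∀ k, ((N k : Subgroup Γ) : Set Γ).Infinite := by
    intro k
    induction k with
    | zero =>
      rw [hN0]
      exact hinf
    | succ k ih =>
      intro hf
      exact hcon ⟨N k, hNn k, ih, by rw [← hNs]; exact hf⟩
  refine hall s ?_
  have h : N s = ⊥ := by
    show (derivedSeries R s).map R.subtype = ⊥
    rw [hs, Subgroup.map_bot]
  rw [h]
  exact Set.finite_singleton 1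

theorem pf_ABN (hCTD : T_CTD) (hCCE : T_CCE) (hFCJ : T_FCJ) : T_ABN := by
  intro M U Γ _ _ _ hconn R hR hs hinf
  obtain ⟨N, hNn, hNi, hN1f⟩ := abn_series R hR hs hinf
  have hN1n : (⁅N, N⁆ : Subgroup Γ).Normal := Subgroup.commutator_normal _ _
  have hN1D : U.D ((⁅N, N⁆ : Subgroup Γ) : Set Γ) := D_finite hN1f
  have hDD : U.D ((hul U N : Subgroup Γ) : Set Γ) := (hCTD U).2.2.2 N
  have hND : N ≤ hul U N := le_sInf fun L hL => hL.1
  have hmin : ∀ L : Subgroup Γ, N ≤ L → U.D (L : Set Γ) → hul U N ≤ L :=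
    fun L h1 h2 => sInf_le ⟨h1, h2⟩
  have hDn : ∀ g x : Γ, x ∈ hul U N → g * x * g⁻¹ ∈ hul U N := by
    intro g
    have h1 : U.D ((cj g (hul U N) : Subgroup Γ) : Set Γ) := ((a_CNJ U) g _ hDD).1
    have h2 : N ≤ cj g (hul U N) := fun x hx => by
      rw [mem_cj]
      exact hND (hNn.conj_mem x hx g)
    exact fun x hx => hmin _ h2 h1 hx
  have hcomm : ∀ X : Set Γ, ∀ Z : Subgroup Γ,
      (∀ g, g ∈ Z ↔ ∀ x ∈ X, g * x * g⁻¹ * x⁻¹ ∈ (⁅N, N⁆ : Subgroup Γ)) →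
      U.D (Z : Set Γ) := by
    intro X Z hZ
    have h1 := (hCTD U).2.1 (⁅N, N⁆ : Subgroup Γ) hN1D X
    have h2 : (Z : Set Γ) = {g : Γ | ∀ x ∈ X, g * x * g⁻¹ * x⁻¹ ∈ (⁅N, N⁆ : Subgroup Γ)} := by
      ext g
      exact hZ g
    rw [h2]
    exact h1
  have h1 : ∀ y ∈ hul U N, ∀ x ∈ N, y * x * y⁻¹ * x⁻¹ ∈ (⁅N, N⁆ : Subgroup Γ) := by
    obtain ⟨Z, hZ⟩ := abn_cent (⁅N, N⁆ : Subgroup Γ) (N : Set Γ)
    intro y hy
    exact (hZ y).mp (hmin Z (fun y hy => (hZ y).mpr fun x hx =>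
      Subgroup.commutator_mem_commutator hy hx) (hcomm _ Z hZ) hy)
  have h2 : ∀ y ∈ hul U N, ∀ x ∈ hul U N, y * x * y⁻¹ * x⁻¹ ∈ (⁅N, N⁆ : Subgroup Γ) := by
    obtain ⟨Z, hZ⟩ := abn_cent (⁅N, N⁆ : Subgroup Γ) ((hul U N : Subgroup Γ) : Set Γ)
    intro y hy
    refine (hZ y).mp (hmin Z (fun y hy => (hZ y).mpr fun x hx => ?_) (hcomm _ Z hZ) hy)
    have h3 := (⁅N, N⁆ : Subgroup Γ).inv_mem (h1 x hx y hy)
    have e : (x * y * x⁻¹ * y⁻¹)⁻¹ = y * x * y⁻¹ * x⁻¹ := by group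
    rw [e] at h3
    exact h3
  obtain ⟨hA1, hA2, hA3, -, -, hA6⟩ := hCCE U (hul U N) hDD
  have hcent : ∀ x ∈ hul U N, ∀ g ∈ cc U (hul U N), g * x = x * g := by
    intro x hx
    refine hFCJ U (cc U (hul U N)) x hA1 (((hN1f).image (fun z => z * x)).subset ?_)
    rintro y ⟨g, hg, rfl⟩
    refine ⟨g * x * g⁻¹ * x⁻¹, h2 g (hA2 hg) x hx, ?_⟩
    show g * x * g⁻¹ * x⁻¹ * x = g * x * g⁻¹
    rw [inv_mul_cancel_right]
  refine ⟨cc U (hul U N), ⟨?_⟩, hA1, ?_, fun a ha b hb => hcent b (hA2 hb) a ha⟩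
  · intro x hx g
    refine (hA6 g (fun y => ⟨hDn g y, fun h => ?_⟩) x).mp hx
    have h4 := hDn g⁻¹ _ h
    have e : g⁻¹ * (g * y * g⁻¹) * g⁻¹⁻¹ = y := by group
    rw [e] at h4
    exact h4
  · intro hf
    have h5 : U.R ((cc U (hul U N) : Subgroup Γ) : Set Γ) = 0 :=
      ((a_RKA U).fin hA1.1 ⟨1, Subgroup.one_mem _⟩).mpr hf
    rw [hA3] at h5
    have h6 := ((a_RKA U).fin hDD ⟨1, Subgroup.one_mem _⟩).mp h5
    exact hNi (h6.subset hND)

end Pool.Agent.H23.KGR
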