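import Pool.Agent.H77.KG.Targets

/-!
# Row AHM of the board `kgr_modules` (MP_9d0bb7_lc)
-/

set_option autoImplicit false

open Set Pool.Agent.H77.BC Pool.Agent.H77.BD Pool.Agent.H77.KG

namespace Pool.Agent.H23.KGR

section

variable {M : Type} {U : RU M} {V V' : Type} [AddCommGroup V] [AddCommGroup V']
  [Cod M V] [Cod M V']

private theorem ahm_D (A : AddSubgroup V) :
    U.D ((AddSubgroup.toSubgroup A : Subgroup (Multiplicative V)) : Set (Multiplicative V)) ↔
      U.D (A : Set V) := Iff.rfl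

private theorem ahm_R (A : AddSubgroup V) :
    U.R ((AddSubgroup.toSubgroup A : Subgroup (Multiplicative V)) : Set (Multiplicative V)) =
      U.R (A : Set V) := rfl

private theorem ahm_dg (h : DAb U V) : DG U (Multiplicative V) := by
  have : Ful U V := h.toFul
  refine { full := Ful.full, mul := ?_ }
  exact h.add

private theorem ahm_conn (A : AddSubgroup V) :
    Conn U (AddSubgroup.toSubgroup A : Subgroup (Multiplicative V)) ↔ CnS U A := by
  constructor
  · rintro ⟨h1, h2⟩
    refine ⟨h1, fun B hB hd hr => ?_⟩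
    have h3 := h2 (AddSubgroup.toSubgroup B) (AddSubgroup.toSubgroup.le_iff_le.mpr hB) hd hr
    exact AddSubgroup.toSubgroup.injective h3
  · rintro ⟨h1, h2⟩
    refine ⟨h1, fun L hL hd hr => ?_⟩
    obtain ⟨B, rfl⟩ := AddSubgroup.toSubgroup.surjective L
    rw [h2 B (AddSubgroup.toSubgroup.le_iff_le.mp hL) hd hr]

end

theorem pf_AHM (hHMI : T_HMI) : T_AHM := by
  intro M U V V' _ _ _ _ iV iV' φ hφ
  have i1 : DG U (Multiplicative V) := ahm_dg iV
  have i2 : DG U (Multiplicative V') := ahm_dg iV'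
  obtain ⟨H1, H2⟩ := @hHMI M U (Multiplicative V) (Multiplicative V') _ _ _ _ i1 i2
    (AddMonoidHom.toMultiplicative φ) hφ
  constructor
  · intro A hA
    obtain ⟨h1, h2, h3⟩ := H1 (AddSubgroup.toSubgroup A) hA
    refine ⟨h1, h2, fun hc => ?_⟩
    have h4 := h3 ((ahm_conn A).mpr hc)
    exact (ahm_conn (A.map φ)).mp h4
  · intro A' hA'
    obtain ⟨h1, h2⟩ := H2 (AddSubgroup.toSubgroup A') hA'
    exact ⟨h1, h2⟩

end Pool.Agent.H23.KGR
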