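import Pool.Agent.H77.KG.Targets

/-!
# Row FI1 of the board `kgr_modules` (MP_9d0bb7_lc)
-/

set_option autoImplicit false

open Set Pool.Agent.H77.BC Pool.Agent.H77.BD Pool.Agent.H77.KG

namespace Pool.Agent.H23.KGR

theorem pf_FI1 (hFRD : T_FRD) (hSSR : T_SSR) (hGTA : T_GTA) (hGTM : T_GTM) (hRON : T_RON)
    (hNTR : T_NTR) (_hEXA : T_EXA) (_hEXB : T_EXB) : T_FI1 := by
  intro P hP C hC M U hU G S I L _ _ _ _ _ _ _ _ iL π hconn htr hfa hPL hπ hker n t hS hn hGT hnt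
  have hGT2 : ∀ k : ℕ, GT U G S (n + 2 + k) → GT U G S (n + 2) := by
    intro k
    induction k with
    | zero => exact fun h => h
    | succ k ih => exact fun h => ih (hGTM U (n + 2 + k) h)
  obtain ⟨k, hk⟩ := Nat.exists_eq_add_of_le hnt
  have hGTn : GT U G S (n + 2) := hGT2 k (hk ▸ hGT)
  have hA := hGTA U t hGT
  rw [hS] at hA
  have hB : (n + 2) * n ≤ t * n := Nat.mul_le_mul_right n hnt
  obtain ⟨M', U', e, h, G', S', _, _, cG, cS, p, q, j, hC', hDG, hFul, hDA, hfa', htr', ⟨hsp, hsq, -, -, heqv⟩, hj,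
    hq, hRG, hRS⟩ := hFRD P hP C hC U hU π hconn htr hfa hPL hπ hker
  have hle : n * (n + 1) ≤ U'.R (univ : Set G') := by
    rw [hRG]
    nlinarith
  have hpk : p.ker = π.ker := by
    ext g
    rw [MonoidHom.mem_ker, MonoidHom.mem_ker, ← hj, map_eq_one_iff j j.injective]
  rcases hSSR P hP U' j hPL htr' hfa' n (hRS.trans hS) hn hle with
    ⟨h1, -, F, _, _, hNat⟩ | ⟨hn2, h6, -⟩ | ⟨hn2, h6, -⟩
  · rw [hRG] at h1
    have htn : t ≤ n + 2 := by
      rw [h1] at hA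
      have h2 : t * n ≤ (n + 2) * n := by rw [mul_comm (n + 2) n]; exact hA
      exact Nat.le_of_mul_le_mul_right h2 (by omega)
    have hbot : p.ker = ⊥ := hRON U hconn htr hfa n hn hS h1 hGTn hNat p q hsp hsq heqv
      (by rw [hpk]; exact hker) (fun x y hxy => by
        rw [hpk]
        exact (hq x y).mp hxy)
    refine ⟨by omega, F, inferInstance, inferInstance, ?_⟩
    refine hNTR n hNat p q ⟨(MonoidHom.ker_eq_bot_iff p).mp hbot, hsp⟩ ⟨?_, hsq⟩ heqv
    intro x y hxy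
    obtain ⟨r, hr, hy⟩ := (hq x y).mp hxy
    rw [← hpk, hbot, Subgroup.mem_bot] at hr
    rw [hy, hr, one_smul]
  · exfalso
    rw [hRG] at h6
    rw [h6, hn2] at hA
    rw [hn2] at hnt
    omega
  · exfalso
    rw [hRG] at h6
    rw [h6, hn2] at hA
    rw [hn2] at hnt
    omega

end Pool.Agent.H23.KGR
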