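import Pool.Agent.H77.KG.Targets

/-!
# Row PRD of the board `kgr_modules` (MP_9d0bb7_lc)
-/

set_option autoImplicit false

open Set Pool.Agent.H77.BC Pool.Agent.H77.BD Pool.Agent.H77.KG

namespace Pool.Agent.H23.KGR

private theorem prd_cent {G I : Type} {L : I → Type} [Group G] [∀ i, Group (L i)]
    (e : G ≃* ∀ i, L i) (hz : ∀ (i : I) (z : L i), (∀ a, a * z = z * a) → z = 1) (J : Set I) :
    Nj e J = Subgroup.centralizer ((Nj e Jᶜ : Subgroup G) : Set G) := by
  classical
  ext g
  rw [Subgroup.mem_centralizer_iff]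
  constructor
  · intro hg h hh
    apply e.injective
    funext i
    rw [map_mul, map_mul, Pi.mul_apply, Pi.mul_apply]
    by_cases hi : i ∈ J
    · rw [hh i (fun h' => h' hi), one_mul, mul_one]
    · rw [hg i hi, one_mul, mul_one]
  · intro h i hi
    apply hz i
    intro a
    have h1 := h (e.symm (Pi.mulSingle i a)) (by
      intro k hk
      rw [MulEquiv.apply_symm_apply]
      have hki : k ≠ i := by
        rintro rfl
        exact hk hi
      exact Pi.mulSingle_eq_of_ne hki a)
    have h2 := congrFun (congrArg e h1) i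
    rw [map_mul, map_mul, Pi.mul_apply, Pi.mul_apply, MulEquiv.apply_symm_apply,
      Pi.mulSingle_eq_same] at h2
    exact h2

theorem pf_PRD (hCTD : T_CTD) : T_PRD := by
  classical
  intro M U G I _ _ L _ _ _ e hz J
  have hD : ∀ J : Set I, U.D (Nj e J : Set G) := fun J => by
    rw [prd_cent e hz J]
    exact (hCTD U).1 _
  refine ⟨hD J, ?_⟩
  have h1 : U.D {z : G × G | z.2 ∈ Nj e J ∧ z.1 * z.2⁻¹ ∈ Nj e Jᶜ} :=
    D_and (DFn_preim DFn_snd (hD J))
      (DFn_preim (DFn_gmul DFn_fst (DFn_ginv DFn_snd)) (hD Jᶜ))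
  unfold DFn
  have h2 : {z : G × G | z.2 = pj e J z.1} =
      {z : G × G | z.2 ∈ Nj e J ∧ z.1 * z.2⁻¹ ∈ Nj e Jᶜ} := by
    ext z
    obtain ⟨g, h⟩ := z
    simp only [mem_ofPred_eq]
    have hpj : ∀ i, e (pj e J g) i = if i ∈ J then e g i else 1 := fun i => by
      unfold pj
      rw [MulEquiv.apply_symm_apply]
    constructor
    · rintro rfl
      refine ⟨?_, ?_⟩
      · intro i hi
        rw [hpj, if_neg hi]
      · intro i hi
        have hi' : i ∈ J := by
          by_contra h'
          exact hi h'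
        rw [map_mul, map_inv, Pi.mul_apply, Pi.inv_apply, hpj, if_pos hi', mul_inv_cancel]
    · rintro ⟨ha, hb⟩
      apply e.injective
      funext i
      rw [hpj]
      by_cases hi : i ∈ J
      · rw [if_pos hi]
        have h3 := hb i (fun h' => h' hi)
        rw [map_mul, map_inv, Pi.mul_apply, Pi.inv_apply, mul_inv_eq_one] at h3
        exact h3.symm
      · rw [if_neg hi]
        exact ha i hi
  rw [h2]
  exact h1

end Pool.Agent.H23.KGR
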